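import Mathlib

/-!
# First Betti numbers of finite index subgroups and the energy of harmonic functions
-/

set_option autoImplicit false

universe v

open Module

namespace Pool.Agent.U674.BG

variable {G : Type v} [Group G]

/-- `F` is equivariant under right translations by `N`, with the homomorphism `φ` -/
def Eqv (N : Subgroup G) (F : G → ℝ) (φ : Additive N →+ ℝ) : Prop :=
  ∀ (g : G) (n : N), F (g * n) = F g + φ (Additive.ofMul n)

theorem Eqv.inc {N : Subgroup G} {F : G → ℝ} {φ : Additive N →+ ℝ} (hF : Eqv N F φ)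
    (t g g' : G) (h : (g : G ⧸ N) = g') : F (t * g) - F g = F (t * g') - F g' := by
  have h1 : g⁻¹ * g' ∈ N := QuotientGroup.eq.1 h
  have h2 := hF g ⟨g⁻¹ * g', h1⟩
  have h3 := hF (t * g) ⟨g⁻¹ * g', h1⟩
  have e1 : g * (g⁻¹ * g') = g' := by group
  have e2 : t * g * (g⁻¹ * g') = t * g' := by group
  simp only [e1, e2] at h2 h3
  rw [h2, h3]
  ring

theorem Eqv.add {N : Subgroup G} {F F' : G → ℝ} {φ φ' : Additive N →+ ℝ} (hF : Eqv N F φ)
    (hF' : Eqv N F' φ') : Eqv N (fun g => F g + F' g) (φ + φ') := by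
  intro g n
  simp only [AddMonoidHom.add_apply]
  rw [hF g n, hF' g n]
  ring

/-- a section of the projection to the cosets -/
noncomputable def sec (N : Subgroup G) (x : G ⧸ N) : G := Quotient.out x

theorem sec_eq (N : Subgroup G) (x : G ⧸ N) : ((sec N x : G) : G ⧸ N) = x :=
  QuotientGroup.out_eq' x

/-- the `N`-part of an element -/
noncomputable def nPart (N : Subgroup G) (g : G) : N :=
  ⟨(sec N (g : G ⧸ N))⁻¹ * g, QuotientGroup.eq.1 (sec_eq N _)⟩

theorem nPart_mul (N : Subgroup G) (g : G) (n : N) : nPart N (g * n) = nPart N g * n := by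
  apply Subtype.ext
  have h : ((g * n : G) : G ⧸ N) = g := QuotientGroup.mk_mul_of_mem g n.2
  simp only [nPart, Subgroup.coe_mul]
  rw [h, mul_assoc]

/-- the equivariant function of a homomorphism -/
noncomputable def FF (N : Subgroup G) (φ : Additive N →+ ℝ) (g : G) : ℝ :=
  φ (Additive.ofMul (nPart N g))

theorem FF_eqv (N : Subgroup G) (φ : Additive N →+ ℝ) : Eqv N (FF N φ) φ := by
  intro g n
  unfold FF
  rw [nPart_mul, ofMul_mul, map_add]

theorem Eqv_pull (N : Subgroup G) (u : G ⧸ N → ℝ) : Eqv N (fun g => u g) 0 := by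
  intro g n
  have h : ((g * n : G) : G ⧸ N) = g := QuotientGroup.mk_mul_of_mem g n.2
  simp only [h, AddMonoidHom.zero_apply, add_zero]

section

variable (S : Finset G) (N : Subgroup G) [Fintype (G ⧸ N)]

/-- the edges of the Schreier graph -/
abbrev Edge : Type v := (G ⧸ N) × S

/-- the cocycle of a homomorphism -/
noncomputable def TT : (Additive N →+ ℝ) →ₗ[ℝ] EuclideanSpace ℝ (Edge S N) where
  toFun φ := WithLp.toLp 2 (fun i => FF N φ (i.2 * sec N i.1) - FF N φ (sec N i.1))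
  map_add' φ ψ := by
    ext i
    simp only [FF, AddMonoidHom.add_apply, PiLp.add_apply]
    ring
  map_smul' c φ := by
    ext i
    simp only [FF, PiLp.smul_apply, smul_eq_mul, RingHom.id_apply]
    change c * _ - c * _ = _
    ring

/-- the coboundary -/
noncomputable def dd : (G ⧸ N → ℝ) →ₗ[ℝ] EuclideanSpace ℝ (Edge S N) where
  toFun u := WithLp.toLp 2 (fun i => u ((i.2 : G) • i.1) - u i.1)
  map_add' u v := by
    ext i
    simp only [Pi.add_apply, PiLp.add_apply]
    ring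
  map_smul' c u := by
    ext i
    simp only [Pi.smul_apply, PiLp.smul_apply, smul_eq_mul, RingHom.id_apply]
    ring

/-- an element of the sum of the two ranges is the increment of an equivariant function -/
theorem exists_F {w : EuclideanSpace ℝ (Edge S N)}
    (hw : w ∈ LinearMap.range (TT S N) ⊔ LinearMap.range (dd S N)) :
    ∃ (F : G → ℝ) (φ : Additive N →+ ℝ), Eqv N F φ ∧
      ∀ (s : S) (g : G), F (s * g) - F g = w (g, s) := by
  obtain ⟨a, ⟨φ, rfl⟩, b, ⟨u, rfl⟩, rfl⟩ := Submodule.mem_sup.1 hw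
  have hE : Eqv N (fun g => FF N φ g + (fun g : G => u (g : G ⧸ N)) g) (φ + 0) :=
    (FF_eqv N φ).add (Eqv_pull N u)
  refine ⟨_, _, hE, fun s g => ?_⟩
  rw [hE.inc (s : G) g (sec N g) (sec_eq N _).symm]
  have h1 : ((s * sec N (g : G ⧸ N) : G) : G ⧸ N) = (s : G) • (g : G ⧸ N) := by
    conv_rhs => rw [← sec_eq N (g : G ⧸ N)]
    rfl
  simp only [TT, dd, LinearMap.coe_mk, AddHom.coe_mk, PiLp.add_apply, h1, sec_eq]
  ring

variable (hgen : Subgroup.closure (S : Set G) = ⊤)

include hgen in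
theorem const_of (F : G → ℝ) (h : ∀ (s : S) (g : G), F (s * g) - F g = 0) (g : G) :
    F g = F 1 := by
  have key : ∀ k : G, ∀ g : G, F (k * g) = F g := by
    intro k
    have hk : k ∈ Subgroup.closure (S : Set G) := by rw [hgen]; trivial
    induction hk using Subgroup.closure_induction with
    | mem s hs => exact fun g => sub_eq_zero.1 (h ⟨s, hs⟩ g)
    | one => exact fun g => by rw [one_mul]
    | mul a b _ _ ha hb => exact fun g => by rw [mul_assoc, ha, hb]
    | inv a _ ha => exact fun g => by rw [← ha (a⁻¹ * g), mul_inv_cancel_left]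
  have := key g 1
  rwa [mul_one] at this

include hgen in
theorem TT_inj_aux (φ : Additive N →+ ℝ) (u : G ⧸ N → ℝ) (h : TT S N φ = dd S N u) : φ = 0 := by
  have hE : Eqv N (fun g => FF N φ g + (fun g : G => (-u) (g : G ⧸ N)) g) (φ + 0) :=
    (FF_eqv N φ).add (Eqv_pull N (-u))
  have h0 : ∀ (s : S) (g : G), (fun g => FF N φ g + (fun g : G => (-u) (g : G ⧸ N)) g) (s * g) -
      (fun g => FF N φ g + (fun g : G => (-u) (g : G ⧸ N)) g) g = 0 := by
    intro s g
    rw [hE.inc (s : G) g (sec N g) (sec_eq N _).symm]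
    have h1 : ((s * sec N (g : G ⧸ N) : G) : G ⧸ N) = (s : G) • (g : G ⧸ N) := by
      conv_rhs => rw [← sec_eq N (g : G ⧸ N)]
      rfl
    have h2 := congrArg (fun w : EuclideanSpace ℝ (Edge S N) => w ((g : G ⧸ N), s)) h
    simp only [TT, dd, LinearMap.coe_mk, AddHom.coe_mk] at h2
    simp only [h1, sec_eq, Pi.neg_apply]
    linarith
  have hc := const_of S hgen (fun g => FF N φ g + (fun g : G => (-u) (g : G ⧸ N)) g) h0
  refine AddMonoidHom.ext fun n => ?_
  have h3 := hE 1 (Additive.toMul n)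
  have h4 := hc ((Additive.toMul n : N) : G)
  rw [one_mul] at h3
  simp only [add_zero, ofMul_toMul] at h3 h4
  rw [AddMonoidHom.zero_apply]
  linarith

/-- the harmonic cocycles -/
noncomputable def WW : Submodule ℝ (EuclideanSpace ℝ (Edge S N)) :=
  (LinearMap.range (dd S N))ᗮ ⊓ (LinearMap.range (TT S N) ⊔ LinearMap.range (dd S N))

include hgen in
theorem TT_inj : Function.Injective (TT S N) := by
  rw [injective_iff_map_eq_zero]
  intro φ h
  exact TT_inj_aux S N hgen φ 0 (by rw [h, map_zero])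

include hgen in
theorem fin_hom : Module.Finite ℝ (Additive N →+ ℝ) :=
  Module.Finite.of_injective (TT S N) (TT_inj S N hgen)

include hgen in
theorem finrank_WW : finrank ℝ (WW S N) = finrank ℝ (Additive N →+ ℝ) := by
  have h1 : LinearMap.range (TT S N) ⊓ LinearMap.range (dd S N) = ⊥ := by
    rw [eq_bot_iff]
    rintro w ⟨⟨φ, rfl⟩, ⟨u, hu⟩⟩
    rw [TT_inj_aux S N hgen φ u hu.symm, map_zero]
    exact Submodule.zero_mem _
  have h2 := Submodule.finrank_sup_add_finrank_inf_eq (LinearMap.range (TT S N))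
    (LinearMap.range (dd S N))
  rw [h1, finrank_bot, add_zero, LinearMap.finrank_range_of_inj (TT_inj S N hgen)] at h2
  have h3 := Submodule.finrank_add_inf_finrank_orthogonal
    (le_sup_right : LinearMap.range (dd S N) ≤ LinearMap.range (TT S N) ⊔ LinearMap.range (dd S N))
  unfold WW
  omega

variable (hS : ∀ s ∈ S, s⁻¹ ∈ S)

include hS in
theorem sum_inv (f : G → ℝ) : ∑ s ∈ S, f s⁻¹ = ∑ s ∈ S, f s := by
  refine Finset.sum_nbij' (fun s => s⁻¹) (fun s => s⁻¹) hS hS ?_ ?_ ?_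
  · intro s _; exact inv_inv s
  · intro s _; exact inv_inv s
  · intro s _; rfl

include hS in
/-- harmonic cocycles come from harmonic functions -/
theorem harm_WW {w : EuclideanSpace ℝ (Edge S N)} (hw : w ∈ WW S N) :
    ∃ F : G → ℝ, (∀ (s : S) (g : G), F (s * g) - F g = w (g, s)) ∧
      ∀ g : G, ∑ s ∈ S, (F (s * g) - F g) = 0 := by
  classical
  obtain ⟨F, φ, hE, hF⟩ := exists_F S N hw.2
  refine ⟨F, hF, fun g => ?_⟩
  set Ω : G ⧸ N → G → ℝ := fun x t => F (t * sec N x) - F (sec N x) with hΩ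
  have hΩg : ∀ g t : G, Ω (g : G ⧸ N) t = F (t * g) - F g := fun g t =>
    hE.inc t _ _ (sec_eq N _)
  have hwΩ : ∀ (x : G ⧸ N) (s : S), w (x, s) = Ω x s := by
    intro x s
    rw [hΩ]
    simp only
    rw [hF s (sec N x), sec_eq]
  have hinv : ∀ (x : G ⧸ N) (s : G), Ω (s⁻¹ • x) s = - Ω x s⁻¹ := by
    intro x s
    have e : s⁻¹ • x = ((s⁻¹ * sec N x : G) : G ⧸ N) := by
      conv_lhs => rw [← sec_eq N x]
      rfl
    rw [e, hΩg, mul_inv_cancel_left]
    simp only [hΩ]
    ring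
  have horth : ∀ v : G ⧸ N → ℝ, ∑ x, ∑ s ∈ S, Ω x s * (v (s • x) - v x) = 0 := by
    intro v
    have h1 := (Submodule.mem_orthogonal _ _).1 hw.1 (dd S N v) ⟨v, rfl⟩
    rw [PiLp.inner_apply, Fintype.sum_prod_type] at h1
    rw [← h1]
    refine Finset.sum_congr rfl fun x _ => ?_
    rw [← Finset.sum_coe_sort]
    refine Finset.sum_congr rfl fun s _ => ?_
    rw [← hwΩ]
    simp only [dd, LinearMap.coe_mk, AddHom.coe_mk, RCLike.inner_apply, conj_trivial]
  have hkey : ∀ v : G ⧸ N → ℝ, ∑ x, v x * ∑ s ∈ S, Ω x s = 0 := by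
    intro v
    have h1 := horth v
    have h2 : ∑ x, ∑ s ∈ S, Ω x s * (v (s • x) - v x) =
        ∑ x, ∑ s ∈ S, Ω x s * v (s • x) - ∑ x, v x * ∑ s ∈ S, Ω x s := by
      rw [← Finset.sum_sub_distrib]
      refine Finset.sum_congr rfl fun x _ => ?_
      rw [Finset.mul_sum, ← Finset.sum_sub_distrib]
      exact Finset.sum_congr rfl fun s _ => by ring
    have h3 : ∑ x, ∑ s ∈ S, Ω x s * v (s • x) = - ∑ x, v x * ∑ s ∈ S, Ω x s := by
      rw [Finset.sum_comm]
      have h4 : ∀ s ∈ S, ∑ x, Ω x s * v (s • x) = - ∑ x, v x * Ω x s⁻¹ := by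
        intro s _
        rw [← Finset.sum_neg_distrib]
        refine Fintype.sum_equiv (MulAction.toPerm s) _ _ fun x => ?_
        rw [MulAction.toPerm_apply]
        have := hinv (s • x) s
        rw [inv_smul_smul] at this
        rw [this]
        ring
      rw [Finset.sum_congr rfl h4, Finset.sum_neg_distrib, Finset.sum_comm]
      congr 1
      refine Finset.sum_congr rfl fun x _ => ?_
      rw [← Finset.mul_sum, sum_inv S hS (fun s => Ω x s)]
    linarith
  have h5 := hkey (Pi.single (g : G ⧸ N) 1)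
  rw [Finset.sum_eq_single (g : G ⧸ N) (fun b _ hb => by rw [Pi.single_eq_of_ne hb, zero_mul])
    (fun h => absurd (Finset.mem_univ _) h), Pi.single_eq_same, one_mul] at h5
  rw [← h5]
  exact Finset.sum_congr rfl fun s _ => (hΩg g s).symm

end

/-- **Betti numbers and the energy of harmonic functions.** -/
theorem betti_bound (S : Finset G) (hS : ∀ s ∈ S, s⁻¹ ∈ S)
    (hgen : Subgroup.closure (S : Set G) = ⊤) (Ball : Finset G) (K : ℝ) (hK : 0 < K)
    (hE : ∀ f : G → ℝ, (∀ g, ∑ s ∈ S, (f (g * s) - f g) = 0) → ∀ t ∈ S,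
      K * (f t - f 1) ^ 2 ≤ ∑ g ∈ Ball, ∑ s ∈ S, (f (g * s) - f g) ^ 2)
    (N : Subgroup G) [N.FiniteIndex] (bad : Set (G ⧸ N))
    (hbad : ∀ x : G ⧸ N, x ∉ bad → ∀ g ∈ Ball, ∀ h ∈ Ball, g⁻¹ • x = h⁻¹ • x → g = h) :
    Module.Finite ℝ (Additive N →+ ℝ) ∧
    (finrank ℝ (Additive N →+ ℝ) : ℝ) ≤ S.card * (bad.ncard + N.index / K) := by
  classical
  have : Fintype (G ⧸ N) := Fintype.ofFinite _
  refine ⟨fin_hom S N hgen, ?_⟩
  rw [← finrank_WW S N hgen]
  set b := stdOrthonormalBasis ℝ (WW S N) with hb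
  set m : Edge S N → ℝ := fun i => ∑ k, ((b k : EuclideanSpace ℝ (Edge S N)) i) ^ 2 with hm
  have hnorm : ∀ k, ∑ i, ((b k : EuclideanSpace ℝ (Edge S N)) i) ^ 2 = 1 := by
    intro k
    have h1 : ‖(b k : EuclideanSpace ℝ (Edge S N))‖ = 1 := by
      have := b.orthonormal.1 k
      rwa [Submodule.coe_norm] at this
    have h2 := EuclideanSpace.norm_sq_eq (b k : EuclideanSpace ℝ (Edge S N))
    rw [h1] at h2
    simp only [Real.norm_eq_abs, sq_abs] at h2
    rw [← h2]
    norm_num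
  have hsum : ∑ i, m i = finrank ℝ (WW S N) := by
    rw [hm]
    simp only
    rw [Finset.sum_comm, Finset.sum_congr rfl fun k _ => hnorm k]
    simp
  -- the element `ω` for the edge `i`
  have hω : ∀ i : Edge S N, ∃ w ∈ WW S N, w i = m i ∧ ∑ j, w j ^ 2 = m i := by
    intro i
    refine ⟨((∑ k, ((b k : EuclideanSpace ℝ (Edge S N)) i) • b k : WW S N) :
      EuclideanSpace ℝ (Edge S N)), Subtype.property _, ?_, ?_⟩
    · have hev : ∀ v : Fin (finrank ℝ (WW S N)) → EuclideanSpace ℝ (Edge S N),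
          (∑ k, v k) i = ∑ k, v k i := fun v => map_sum (EuclideanSpace.proj (𝕜 := ℝ) i) v _
      rw [Submodule.coe_sum, hev]
      refine Finset.sum_congr rfl fun k _ => ?_
      rw [Submodule.coe_smul, PiLp.smul_apply, smul_eq_mul, sq]
    · have h1 : ‖(∑ k, ((b k : EuclideanSpace ℝ (Edge S N)) i) • b k : WW S N)‖ ^ 2 = m i := by
        rw [← real_inner_self_eq_norm_sq, b.orthonormal.inner_sum]
        exact Finset.sum_congr rfl fun k _ => by simp [sq]
      have h2 := EuclideanSpace.norm_sq_eq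
        ((∑ k, ((b k : EuclideanSpace ℝ (Edge S N)) i) • b k : WW S N) :
          EuclideanSpace ℝ (Edge S N))
      rw [← Submodule.coe_norm, h1] at h2
      rw [h2]
      exact Finset.sum_congr rfl fun j _ => by rw [Real.norm_eq_abs, sq_abs]
  have hm0 : ∀ i, 0 ≤ m i := fun i => Finset.sum_nonneg fun k _ => sq_nonneg _
  have hm1 : ∀ i, m i ≤ 1 := by
    intro i
    obtain ⟨w, _, h1, h2⟩ := hω i
    have h3 : w i ^ 2 ≤ ∑ j, w j ^ 2 :=
      Finset.single_le_sum (f := fun j => w j ^ 2) (fun j _ => sq_nonneg _) (Finset.mem_univ i)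
    rw [h1, h2] at h3
    nlinarith [hm0 i]
  have hgood : ∀ (x : G ⧸ N) (s : S), x ∉ bad → m (x, s) ≤ 1 / K := by
    intro x s hx
    obtain ⟨w, hw, h1, h2⟩ := hω (x, s)
    obtain ⟨F, hF1, hF2⟩ := harm_WW S N hS hw
    set g₀ := sec N x with hg₀
    have hx0 : ((g₀ : G) : G ⧸ N) = x := sec_eq N x
    have hharm : ∀ g : G, ∑ t ∈ S, ((fun g : G => F (g⁻¹ * g₀)) (g * t) -
        (fun g : G => F (g⁻¹ * g₀)) g) = 0 := by
      intro g
      have h3 := hF2 (g⁻¹ * g₀)
      rw [← sum_inv S hS] at h3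
      rw [← h3]
      refine Finset.sum_congr rfl fun t _ => ?_
      simp only [mul_inv_rev, mul_assoc]
    have h4 := hE (fun g : G => F (g⁻¹ * g₀)) hharm (s : G)⁻¹ (hS _ s.2)
    simp only [inv_inv, inv_one, one_mul] at h4
    rw [hF1 s g₀, hx0, h1] at h4
    have h5 : ∑ g ∈ Ball, ∑ t ∈ S, (F ((g * t)⁻¹ * g₀) - F (g⁻¹ * g₀)) ^ 2 ≤ m (x, s) := by
      have h6 : ∀ g ∈ Ball, ∑ t ∈ S, (F ((g * t)⁻¹ * g₀) - F (g⁻¹ * g₀)) ^ 2 =
          ∑ t : S, w (g⁻¹ • x, t) ^ 2 := by
        intro g _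
        have e : g⁻¹ • x = ((g⁻¹ * g₀ : G) : G ⧸ N) := by
          rw [← hx0]
          rfl
        have h7 : ∑ t ∈ S, (F ((g * t)⁻¹ * g₀) - F (g⁻¹ * g₀)) ^ 2 =
            ∑ t ∈ S, (F (t⁻¹ * (g⁻¹ * g₀)) - F (g⁻¹ * g₀)) ^ 2 :=
          Finset.sum_congr rfl fun t _ => by rw [mul_inv_rev, mul_assoc]
        rw [h7, sum_inv S hS (fun t => (F (t * (g⁻¹ * g₀)) - F (g⁻¹ * g₀)) ^ 2),
          ← Finset.sum_coe_sort]
        refine Finset.sum_congr rfl fun t _ => ?_
        rw [hF1 t (g⁻¹ * g₀), e]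
      rw [Finset.sum_congr rfl h6]
      have hinj : Set.InjOn (fun g : G => g⁻¹ • x) (Ball : Set G) := fun g hg h hh he =>
        hbad x hx g hg h hh he
      rw [← Finset.sum_image (s := Ball) (g := fun g : G => g⁻¹ • x)
        (f := fun y => ∑ t : S, w (y, t) ^ 2) hinj, ← h2, Fintype.sum_prod_type]
      exact Finset.sum_le_sum_of_subset_of_nonneg (Finset.subset_univ _)
        fun y _ _ => Finset.sum_nonneg fun t _ => sq_nonneg _
    have h8 : K * m (x, s) ^ 2 ≤ m (x, s) := h4.trans h5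
    rw [le_div_iff₀ hK]
    by_contra hcon
    push Not at hcon
    have hpos : 0 < m (x, s) := by
      rcases (hm0 (x, s)).lt_or_eq with h | h
      · exact h
      · rw [← h] at hcon
        linarith
    nlinarith
  rw [← hsum, Fintype.sum_prod_type]
  have hx : ∀ x : G ⧸ N, ∑ s : S, m (x, s) ≤
      S.card * ((if x ∈ bad then 1 else 0) + 1 / K) := by
    intro x
    have hKi : 0 ≤ 1 / K := by positivity
    have h1 : ∑ s : S, m (x, s) ≤ ∑ _s : S, ((if x ∈ bad then (1 : ℝ) else 0) + 1 / K) := by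
      refine Finset.sum_le_sum fun s _ => ?_
      by_cases h : x ∈ bad
      · rw [if_pos h]
        linarith [hm1 (x, s)]
      · rw [if_neg h, zero_add]
        exact hgood x s h
    refine h1.trans (le_of_eq ?_)
    rw [Finset.sum_const, Finset.card_univ, Fintype.card_coe, nsmul_eq_mul]
  refine (Finset.sum_le_sum fun x _ => hx x).trans (le_of_eq ?_)
  rw [← Finset.mul_sum, Finset.sum_add_distrib]
  congr 1
  have h1 : ∑ x : G ⧸ N, (if x ∈ bad then (1 : ℝ) else 0) = bad.ncard := by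
    rw [Finset.sum_boole, Set.ncard_eq_toFinset_card']
    congr 2
    ext x
    simp
  have h2 : ∑ _x : G ⧸ N, 1 / K = N.index / K := by
    rw [Finset.sum_const, Finset.card_univ, nsmul_eq_mul, ← Nat.card_eq_fintype_card,
      ← Subgroup.index_eq_card]
    ring
  rw [h1, h2]

end Pool.Agent.U674.BG
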