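import Pool.Agent.U674.BG.Unif
import Pool.Agent.U674.BG.Alg

/-!
# First Betti numbers of finite index subgroups of CAT(0) groups without rank one isometries
-/

set_option autoImplicit false

universe u v

open Set Metric Module
open Pool.Agent.TH60.FP Pool.Agent.Y34.HB Pool.Agent.Y34.EL

namespace Pool.Agent.U674.BG

/-- a group with a geometric action is generated by the elements of small displacement -/
theorem gen_ball {X : Type u} [MetricSpace X] {G : Type v} [Group G] [MulAction G X]
    (hG : Geo X G) (o : X) : ∃ L : ℝ, Subgroup.closure {g : G | dist o (g • o) ≤ L} = ⊤ := by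
  have _ := hG.isom
  have _ := hG.proper
  obtain ⟨D, hD, hn⟩ := Pool.Agent.Y914.EL.near hG o
  refine ⟨2 * D + 1, ?_⟩
  have hst := (t_stew X hG.cn).1
  have hds : ∀ a b : G, dist o ((a⁻¹ * b) • o) = dist (a • o) (b • o) := by
    intro a b
    rw [← dist_smul a o ((a⁻¹ * b) • o), smul_smul, mul_inv_cancel_left]
  have key : ∀ (n : ℕ) (p : X), dist o p ≤ n → ∀ h : G, dist (h • o) p ≤ D →
      h ∈ Subgroup.closure {g : G | dist o (g • o) ≤ 2 * D + 1} := by
    intro n
    induction n with
    | zero =>
      intro p hp h hh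
      have hop : o = p := dist_le_zero.1 (by simpa using hp)
      apply Subgroup.subset_closure
      rw [Set.mem_setOf_eq, dist_comm]
      rw [← hop] at hh
      linarith
    | succ n ih =>
      intro p hp h hh
      by_cases hle : dist o p ≤ n
      · exact ih p hle h hh
      · push Not at hle
        obtain ⟨y, hy1, hy2⟩ := hst o p n (Nat.cast_nonneg n) hle.le
        obtain ⟨γ, hγ⟩ := hn y
        have h1 := ih y hy1.le γ hγ
        have h2 : γ⁻¹ * h ∈ Subgroup.closure {g : G | dist o (g • o) ≤ 2 * D + 1} := by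
          apply Subgroup.subset_closure
          rw [Set.mem_setOf_eq, hds]
          have t1 := dist_triangle (γ • o) y (h • o)
          have t2 := dist_triangle y p (h • o)
          rw [dist_comm p] at t2
          push_cast at hp
          linarith
        have h3 := Subgroup.mul_mem _ h1 h2
        rwa [mul_inv_cancel_left] at h3
  rw [eq_top_iff]
  intro g _
  refine key ⌈dist o (g • o)⌉₊ (g • o) (Nat.le_ceil _) g ?_
  rw [dist_self]
  exact hD

/-- the trivial bound -/
theorem triv_bound {G : Type v} [Group G] (S : Finset G)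
    (hgen : Subgroup.closure (S : Set G) = ⊤) (N : Subgroup G) [N.FiniteIndex] :
    (finrank ℝ (Additive N →+ ℝ) : ℝ) ≤ S.card * N.index := by
  classical
  have : Fintype (G ⧸ N) := Fintype.ofFinite _
  have h1 := LinearMap.finrank_le_finrank_of_injective (TT_inj S N hgen)
  rw [finrank_euclideanSpace, Fintype.card_prod, Fintype.card_coe,
    ← Nat.card_eq_fintype_card, ← Subgroup.index_eq_card] at h1
  calc (finrank ℝ (Additive N →+ ℝ) : ℝ) ≤ ((N.index * S.card : ℕ) : ℝ) := Nat.cast_le.2 h1
    _ = S.card * N.index := by push_cast; ring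

/-- the cosets fixed by a nontrivial element of displacement at most `R` -/
def Short {X : Type u} [MetricSpace X] {G : Type v} [Group G] [MulAction G X] (o : X)
    (N : Subgroup G) (R : ℝ) : Set (G ⧸ N) :=
  {x | ∃ w : G, w ≠ 1 ∧ dist o (w • o) ≤ R ∧ w • x = x}

theorem main {X : Type u} [MetricSpace X] {G : Type v}
    [Group G] [MulAction G X] (hG : Geo X G) (hGC : GC X) (hno : ∀ g : G, ¬ RankOne X g) (o : X) :
    ∃ C : ℝ, 0 ≤ C ∧ ∀ (N : Subgroup G) [N.FiniteIndex],
      Module.Finite ℝ (Additive N →+ ℝ) ∧ ∀ R : ℝ, 2 ≤ R →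
      (finrank ℝ (Additive N →+ ℝ) : ℝ) ≤ C * ((Short o N R).ncard + N.index / Real.log R) := by
  classical
  have _ := hG.isom
  have hf : ∀ R : ℝ, {g : G | dist o (g • o) ≤ R}.Finite := Pool.Agent.Y528.EL.ball_finite hG o
  have hinv : ∀ g : G, dist o (g⁻¹ • o) = dist o (g • o) := by
    intro g
    rw [← dist_smul g o (g⁻¹ • o), smul_inv_smul, dist_comm]
  obtain ⟨L, hL⟩ := gen_ball hG o
  set S : Finset G := (hf L).toFinset with hSdef
  have hS : ∀ s ∈ S, s⁻¹ ∈ S := by
    intro s hs
    rw [hSdef, Set.Finite.mem_toFinset, Set.mem_setOf_eq] at hs ⊢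
    rwa [hinv]
  have hgen : Subgroup.closure (S : Set G) = ⊤ := by
    rw [hSdef, Set.Finite.coe_toFinset]
    exact hL
  obtain ⟨κ, R₀, hκ, hu⟩ := unif hG hGC hno o S hS hgen hf
  set R₁ : ℝ := max (2 * R₀) 4 with hR₁
  have hR14 : (4 : ℝ) ≤ R₁ := le_max_right _ _
  have hlogR1 : 0 < Real.log R₁ := Real.log_pos (by linarith)
  have hC0 : (0 : ℝ) ≤ 1 + 2 / κ + Real.log R₁ := by positivity
  have hS0 : (0 : ℝ) ≤ S.card := Nat.cast_nonneg _
  refine ⟨S.card * (1 + 2 / κ + Real.log R₁), mul_nonneg hS0 hC0, fun N _ => ?_⟩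
  have hfin : Module.Finite ℝ (Additive N →+ ℝ) := by
    have : Fintype (G ⧸ N) := Fintype.ofFinite _
    exact fin_hom S N hgen
  refine ⟨hfin, fun R hR => ?_⟩
  have hlogR : 0 < Real.log R := Real.log_pos (by linarith)
  have hidx : (0 : ℝ) ≤ N.index := Nat.cast_nonneg _
  have hsh : (0 : ℝ) ≤ (Short o N R).ncard := Nat.cast_nonneg _
  have hq : 0 ≤ (N.index : ℝ) / Real.log R := by positivity
  have h2κ : 0 ≤ 2 / κ := by positivity
  by_cases hRR : R₁ ≤ R
  · -- large radius
    have hR4 : 4 ≤ R := hR14.trans hRR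
    have hr0 : R₀ ≤ R / 2 := by
      have := (le_max_left (2 * R₀) 4).trans hRR
      linarith
    have hlog2 : Real.log R / 2 ≤ Real.log (R / 2) := by
      rw [Real.log_div (by linarith) (by norm_num)]
      have h4 : Real.log 4 ≤ Real.log R := Real.log_le_log (by norm_num) hR4
      have h42 : Real.log 4 = 2 * Real.log 2 := by
        rw [show (4 : ℝ) = 2 ^ 2 by norm_num, Real.log_pow]
        norm_num
      linarith
    have hK : 0 < κ * Real.log (R / 2) := mul_pos hκ (by linarith)
    obtain ⟨_, hb⟩ := betti_bound S hS hgen (hf (R / 2)).toFinset (κ * Real.log (R / 2)) hK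
      (fun f hh t ht => by
        have := hu f hh t ht (R / 2) hr0
        calc κ * Real.log (R / 2) * (f t - f 1) ^ 2 = κ * (f t - f 1) ^ 2 * Real.log (R / 2) := by
              ring
          _ ≤ _ := this)
      N (Short o N R) (fun x hx g hg h hh he => by
        rw [Set.Finite.mem_toFinset, Set.mem_setOf_eq] at hg hh
        by_contra hne
        refine hx ⟨h * g⁻¹, fun h1 => hne (mul_inv_eq_one.1 h1).symm, ?_, ?_⟩
        · have h1 := dist_triangle o (h • o) ((h * g⁻¹) • o)
          rw [mul_smul, dist_smul, hinv] at h1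
          rw [mul_smul]
          linarith
        · rw [mul_smul, he, smul_inv_smul])
    refine hb.trans ?_
    have h1 : (N.index : ℝ) / (κ * Real.log (R / 2)) ≤ 2 / κ * (N.index / Real.log R) := by
      rw [div_mul_div_comm, div_le_div_iff₀ hK (by positivity)]
      have h3 : κ * (Real.log R) ≤ 2 * (κ * Real.log (R / 2)) := by nlinarith
      nlinarith
    have h2 : ((Short o N R).ncard : ℝ) + N.index / (κ * Real.log (R / 2)) ≤
        (1 + 2 / κ + Real.log R₁) * ((Short o N R).ncard + N.index / Real.log R) := by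
      nlinarith [mul_nonneg h2κ hsh, mul_nonneg hlogR1.le hsh, mul_nonneg hlogR1.le hq]
    calc (S.card : ℝ) * ((Short o N R).ncard + N.index / (κ * Real.log (R / 2))) ≤
        S.card * ((1 + 2 / κ + Real.log R₁) *
          ((Short o N R).ncard + N.index / Real.log R)) := mul_le_mul_of_nonneg_left h2 hS0
      _ = _ := by ring
  · push Not at hRR
    refine (triv_bound S hgen N).trans ?_
    have h3 : Real.log R ≤ Real.log R₁ := Real.log_le_log (by linarith) hRR.le
    have h1 : (N.index : ℝ) ≤ Real.log R₁ * (N.index / Real.log R) := by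
      rw [mul_div_assoc', le_div_iff₀ hlogR]
      nlinarith
    have h2 : (N.index : ℝ) ≤
        (1 + 2 / κ + Real.log R₁) * ((Short o N R).ncard + N.index / Real.log R) := by
      nlinarith [mul_nonneg h2κ hsh, mul_nonneg hlogR1.le hsh, mul_nonneg h2κ hq]
    calc (S.card : ℝ) * N.index ≤ S.card * ((1 + 2 / κ + Real.log R₁) *
          ((Short o N R).ncard + N.index / Real.log R)) := mul_le_mul_of_nonneg_left h2 hS0
      _ = _ := by ring

end Pool.Agent.U674.BG
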