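import Pool.Agent.T6.H46.RC.Full

/-!
# Quadratic divergence of lines with the passing property, and linear connectivity of spheres
-/

set_option autoImplicit false

open Metric Set Filter Topology
open Pool.Agent.TH60.FP Pool.Agent.Y34.HB Pool.Agent.Y34.EL
open Pool.Agent.T6.H46.RC (Pj Pass pj_lip pj_self exists_pj pass_of_axis)

namespace Pool.Agent.U674.BG

/-- a discrete intermediate value theorem -/
theorem crossing (s : ℕ → ℝ) (a n : ℕ) (θ : ℝ) (ha : a ≤ n) (h0 : s a ≤ θ) (h1 : θ ≤ s n)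
    (hstep : ∀ i, i < n → |s (i + 1) - s i| ≤ 1) :
    ∃ b, a ≤ b ∧ b ≤ n ∧ θ ≤ s b ∧ s b ≤ θ + 1 := by
  classical
  have hex : ∃ b, a ≤ b ∧ b ≤ n ∧ θ ≤ s b := ⟨n, ha, le_rfl, h1⟩
  obtain ⟨h2, h3, h4⟩ := Nat.find_spec hex
  have hmin := fun k => Nat.find_min hex (m := k)
  set b := Nat.find hex with hb
  refine ⟨b, h2, h3, h4, ?_⟩
  rcases h2.eq_or_lt with h | h
  · rw [← h]; linarith
  · have h5 : ¬ (a ≤ b - 1 ∧ b - 1 ≤ n ∧ θ ≤ s (b - 1)) := hmin (b - 1) (by omega)
    have h6 : s (b - 1) < θ := by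
      by_contra hcon
      push Not at hcon
      exact h5 ⟨by omega, by omega, hcon⟩
    have h7 := hstep (b - 1) (by omega)
    rw [show b - 1 + 1 = b by omega] at h7
    have h8 := (abs_le.1 h7).2
    linarith

theorem chain_dist {X : Type} [MetricSpace X] (y : ℕ → X) (n : ℕ)
    (h : ∀ i, i < n → dist (y i) (y (i + 1)) ≤ 1) (a : ℕ) :
    ∀ k : ℕ, a + k ≤ n → dist (y a) (y (a + k)) ≤ k := by
  intro k
  induction k with
  | zero => intro _; simp
  | succ k ih =>
    intro hk
    have h1 := ih (by omega)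
    have h2 := h (a + k) (by omega)
    have h3 := dist_triangle (y a) (y (a + k)) (y (a + (k + 1)))
    rw [show a + (k + 1) = a + k + 1 by omega] at h3 ⊢
    push_cast
    linarith

theorem quad {X : Type} [MetricSpace X] [ProperSpace X] (hX : CN X) {c : ℝ → X} {τ R D : ℝ}
    (hP : Pass c τ R D) (o : X) :
    ∃ κ r₀ : ℝ, 0 < κ ∧ ∀ r : ℝ, r₀ ≤ r → ∃ p q : X, dist o p = r ∧ dist o q = r ∧
      ∀ (n : ℕ) (y : ℕ → X), y 0 = p → y n = q → (∀ i, i ≤ n → dist o (y i) = r) →
        (∀ i, i < n → dist (y i) (y (i + 1)) ≤ 1) → κ * r ^ 2 ≤ n := by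
  obtain ⟨hc, hτ, hR, hD, hpass⟩ := hP
  set d : ℝ := dist o (c 0) with hd
  have hd0 : 0 ≤ d := dist_nonneg
  set B : ℝ := 2 * D + τ with hB
  have hB0 : 0 < B := by linarith
  refine ⟨1 / (4 * (B + 1)), 2 * (d + B + 3 + 2 * R), by positivity, fun r hr => ?_⟩
  have hrd : d ≤ r := by linarith
  have hcont : Continuous fun u : ℝ => dist o (c u) := continuous_const.dist hc.continuous
  have hc0 : ∀ u : ℝ, dist (c 0) (c u) = |u| := by
    intro u
    rw [hc.dist_eq, Real.dist_eq, zero_sub, abs_neg]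
  have hlow : ∀ u : ℝ, |u| - d ≤ dist o (c u) := by
    intro u
    have := dist_triangle (c 0) o (c u)
    rw [hc0, dist_comm (c 0) o] at this
    linarith
  have hup : ∀ u : ℝ, dist o (c u) ≤ |u| + d := by
    intro u
    have := dist_triangle o (c 0) (c u)
    rw [hc0] at this
    linarith
  -- the two points
  obtain ⟨v, ⟨hv0, _⟩, hv⟩ : ∃ v ∈ Icc (0 : ℝ) (r + d), dist o (c v) = r := by
    have h1 := intermediate_value_Icc (by linarith : (0 : ℝ) ≤ r + d) hcont.continuousOn
    have h2 : r ∈ Icc (dist o (c 0)) (dist o (c (r + d))) := by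
      refine ⟨hrd, ?_⟩
      have := hlow (r + d)
      rw [abs_of_nonneg (by linarith)] at this
      linarith
    exact h1 h2
  obtain ⟨u, ⟨_, hu0⟩, hu⟩ : ∃ u ∈ Icc (-(r + d)) (0 : ℝ), dist o (c u) = r := by
    have h1 := intermediate_value_Icc' (by linarith : -(r + d) ≤ (0 : ℝ)) hcont.continuousOn
    have h2 : r ∈ Icc (dist o (c 0)) (dist o (c (-(r + d)))) := by
      refine ⟨hrd, ?_⟩
      have := hlow (-(r + d))
      rw [abs_neg, abs_of_nonneg (by linarith)] at this
      linarith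
    exact h1 h2
  have hv1 : r - d ≤ v := by
    have := hup v
    rw [hv, abs_of_nonneg hv0] at this
    linarith
  have hu1 : u ≤ -(r - d) := by
    have := hup u
    rw [hu, abs_of_nonpos hu0] at this
    linarith
  refine ⟨c u, c v, hu, hv, fun n y hy0 hyn hys hyc => ?_⟩
  choose s hs using fun i => exists_pj hc (y i)
  have hs0 : s 0 = u := by
    have h1 := pj_lip hX hc (hs 0) (pj_self (c := c) u)
    rw [hy0, dist_self] at h1
    have h2 := abs_nonneg (s 0 - u)
    exact sub_eq_zero.1 (abs_eq_zero.1 (le_antisymm h1 h2))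
  have hsn : s n = v := by
    have h1 := pj_lip hX hc (hs n) (pj_self (c := c) v)
    rw [hyn, dist_self] at h1
    have h2 := abs_nonneg (s n - v)
    exact sub_eq_zero.1 (abs_eq_zero.1 (le_antisymm h1 h2))
  have hstep : ∀ i, i < n → |s (i + 1) - s i| ≤ 1 := by
    intro i hi
    have h1 := pj_lip hX hc (hs i) (hs (i + 1))
    rw [abs_sub_comm]
    exact h1.trans (hyc i hi)
  set L : ℝ := (r - d) / 2 with hL
  have hL0 : 0 ≤ L := by rw [hL]; linarith
  -- one block
  have hblock : ∀ a b : ℕ, a ≤ b → b ≤ n → -L ≤ s a → s b ≤ L → B ≤ s b - s a →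
      (r - d) - 2 * R ≤ (b : ℝ) - a := by
    intro a b hab hbn ha hb hBab
    set i : ℤ := ⌈(s a + D) / τ⌉ with hi
    have h1 : s a + D ≤ i * τ := by
      have := Int.le_ceil ((s a + D) / τ)
      rwa [div_le_iff₀ hτ] at this
    have h2 : i * τ < s a + D + τ := by
      have := Int.ceil_lt_add_one ((s a + D) / τ)
      have h3 := mul_lt_mul_of_pos_right this hτ
      rw [add_mul, div_mul_cancel₀ _ hτ.ne', one_mul] at h3
      exact h3
    have h3 : i * τ + D ≤ s b := by linarith
    obtain ⟨m, hm1, hm2⟩ := hpass (y a) (y b) (s a) (s b) i (hs a) (hs b) h1 h3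
    have hiL : |(i : ℝ) * τ| ≤ L := abs_le.2 ⟨by linarith, by linarith⟩
    have h4 : ∀ j, j ≤ n → r - d - L - R ≤ dist (y j) m := by
      intro j hj
      have t1 := dist_triangle o m (y j)
      have t2 := dist_triangle o (c (i * τ)) m
      have t3 := hup (i * τ)
      rw [hys j hj] at t1
      rw [dist_comm m] at t1
      have t4 := hlow (i * τ)
      -- `d(o, m) ≤ d + |iτ| + R`
      linarith
    have h5 := h4 a (hab.trans hbn)
    have h6 := h4 b hbn
    have h7 : dist (y a) (y b) ≤ (b : ℝ) - a := by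
      have := chain_dist y n hyc a (b - a) (by omega)
      rw [show a + (b - a) = b by omega, Nat.cast_sub hab] at this
      exact this
    rw [dist_comm m] at hm1
    have hL2 : L = (r - d) / 2 := hL
    linarith
  set W : ℝ := (r - d) - 2 * R with hW
  have hW0 : 0 ≤ W := by rw [hW]; linarith
  set M : ℕ := ⌊(2 * L - 1) / (B + 1)⌋₊ with hM
  have hML : (M : ℝ) * (B + 1) ≤ 2 * L - 1 := by
    have h1 : 0 ≤ (2 * L - 1) / (B + 1) := by
      apply div_nonneg _ (by linarith)
      rw [hL]; linarith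
    have h2 := Nat.floor_le h1
    rwa [← hM, le_div_iff₀ (by linarith)] at h2
  have hind : ∀ k : ℕ, k ≤ M → ∃ a, a ≤ n ∧ -L + k * (B + 1) ≤ s a ∧
      s a ≤ -L + k * (B + 1) + 1 ∧ (k : ℝ) * W ≤ a := by
    intro k
    induction k with
    | zero =>
      intro _
      obtain ⟨b, _, h2, h3, h4⟩ := crossing s 0 n (-L) (Nat.zero_le _)
        (by rw [hs0]; linarith) (by rw [hsn]; linarith) hstep
      refine ⟨b, h2, by simpa using h3, by simpa using h4, ?_⟩
      simp
    | succ k ih =>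
      intro hk
      obtain ⟨a, ha1, ha2, ha3, ha4⟩ := ih (by omega)
      have hkM : ((k : ℝ) + 1) * (B + 1) ≤ 2 * L - 1 := by
        refine le_trans (mul_le_mul_of_nonneg_right ?_ (by linarith)) hML
        exact_mod_cast hk
      obtain ⟨b, h1, h2, h3, h4⟩ := crossing s a n (-L + ((k : ℝ) + 1) * (B + 1)) ha1
        (by nlinarith) (by rw [hsn]; linarith) hstep
      refine ⟨b, h2, by push_cast; exact h3, by push_cast; exact h4, ?_⟩
      have hk0 : (0 : ℝ) ≤ k := Nat.cast_nonneg k
      have hkB : 0 ≤ (k : ℝ) * (B + 1) := by positivity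
      have h5 := hblock a b h1 h2 (by linarith) (by linarith) (by nlinarith)
      push_cast
      linarith
  obtain ⟨a, ha1, _, _, ha4⟩ := hind M le_rfl
  have han : (a : ℝ) ≤ n := Nat.cast_le.2 ha1
  have hM2 : r / (2 * (B + 1)) ≤ M := by
    have h1 := Nat.lt_floor_add_one ((2 * L - 1) / (B + 1))
    rw [← hM] at h1
    have h2 : r / (2 * (B + 1)) + 1 ≤ (2 * L - 1) / (B + 1) := by
      rw [div_add_one (by positivity), div_le_div_iff₀ (by positivity) (by positivity), hL]
      nlinarith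
    linarith
  have hW2 : r / 2 ≤ W := by rw [hW]; linarith
  have hr0 : 0 ≤ r := by linarith
  calc 1 / (4 * (B + 1)) * r ^ 2 = r / (2 * (B + 1)) * (r / 2) := by
        field_simp
        ring
    _ ≤ M * W := mul_le_mul hM2 hW2 (by positivity) (Nat.cast_nonneg _)
    _ ≤ a := ha4
    _ ≤ n := han

/-- spheres are linearly connected if there are no rank one isometries -/
theorem linear {X : Type} [MetricSpace X] {G : Type} [Group G] [MulAction G X]
    (hG : Geo X G) (hGC : GC X) (hno : ∀ g : G, ¬ RankOne X g) (o p q : X) (r : ℝ)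
    (hp : dist o p = r) (hq : dist o q = r) : Chain o r p q (42 * (r + 1)) := by
  have hr : 0 ≤ r := by rw [← hp]; exact dist_nonneg
  rcases hr.eq_or_lt with h | h
  · have h1 : o = p := dist_eq_zero.1 (by rw [hp, ← h])
    have h2 : o = q := dist_eq_zero.1 (by rw [hq, ← h])
    refine ⟨0, fun _ => p, ?_, rfl, ?_, fun i _ => hp, fun i hi => absurd hi (Nat.not_lt_zero i)⟩
    · rw [← h]; norm_num
    · rw [← h1, ← h2]
  · have hop : o ≠ p := fun he => by rw [he, dist_self] at hp; linarith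
    have hoq : o ≠ q := fun he => by rw [he, dist_self] at hq; linarith
    obtain ⟨c₁, h1, h2⟩ := Pool.Agent.Y914.EL.ray_of hGC hop
    obtain ⟨c₂, h3, h4⟩ := Pool.Agent.Y914.EL.ray_of hGC hoq
    have h5 := linked hG hno o c₁ c₂ h1 h3 r hr
    have e1 : p = c₁ r := dist_eq_zero.1 (by rw [h2, hp, sub_self, abs_zero])
    have e2 : q = c₂ r := dist_eq_zero.1 (by rw [h4, hq, sub_self, abs_zero])
    rw [e1, e2]
    exact h5

end Pool.Agent.U674.BG
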