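import Pool.Agent.Y34.EL.All

/-!
# Uniform logarithmic energy of harmonic functions

The energy of a function which separates two unbounded sets, with constants which do not depend on
the function; adapted from `Pool/Agent/Y899/EL/Cap.lean`.
-/

set_option autoImplicit false

universe u v

open Set Metric
open Pool.Agent.TH60.FP Pool.Agent.Y34.HB Pool.Agent.Y34.EL
open Pool.Agent.Y899.EL.Cap (An mem_An An_mono shift noloop tele)

namespace Pool.Agent.U674.BG

section Abs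

variable {G : Type v} [Group G] (l : G → ℝ)

variable (hf : ∀ R : ℝ, {g : G | l g ≤ R}.Finite)

variable (hmul : ∀ g k : G, l (g * k) ≤ l g + l k) (hinv : ∀ g : G, l g⁻¹ = l g)

include hmul hinv

theorem step (hl0 : ∀ g, 0 ≤ l g) (S : Finset G) (hgen : Subgroup.closure (S : Set G) = ⊤)
    (k : G) :
    ∃ c M : ℝ, 0 ≤ c ∧ 0 ≤ M ∧ ∀ (f : G → ℝ) (x y : ℝ),
      ∑ g ∈ An l hf x y, (f (g * k) - f g) ^ 2 ≤
      c * ∑ g ∈ An l hf (x - M) (y + M), ∑ s ∈ S, (f (g * s) - f g) ^ 2 := by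
  classical
  have he : ∀ (f : G → ℝ) (g : G), 0 ≤ ∑ s ∈ S, (f (g * s) - f g) ^ 2 :=
    fun f g => Finset.sum_nonneg (fun s _ => sq_nonneg _)
  have hk : k ∈ Subgroup.closure (S : Set G) := by rw [hgen]; trivial
  induction hk using Subgroup.closure_induction with
  | mem s hs =>
    refine ⟨1, 0, zero_le_one, le_refl _, fun f x y => ?_⟩
    rw [one_mul, sub_zero, add_zero]
    refine Finset.sum_le_sum (fun g _ => ?_)
    exact Finset.single_le_sum (f := fun s => (f (g * s) - f g) ^ 2)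
      (fun s _ => sq_nonneg _) (Finset.mem_coe.1 hs)
  | one =>
    refine ⟨0, 0, le_refl _, le_refl _, fun f x y => ?_⟩
    simp
  | mul k k' _ _ h h' =>
    obtain ⟨c, M, hc, hM, h⟩ := h
    obtain ⟨c', M', hc', hM', h'⟩ := h'
    refine ⟨2 * c + 2 * c', max M (l k + M'), by positivity, le_max_of_le_left hM,
      fun f x y => ?_⟩
    have h1 : ∑ g ∈ An l hf x y, (f (g * (k * k')) - f g) ^ 2 ≤
        2 * ∑ g ∈ An l hf x y, (f (g * k) - f g) ^ 2 +
        2 * ∑ g ∈ An l hf x y, (f (g * k * k') - f (g * k)) ^ 2 := by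
      rw [Finset.mul_sum, Finset.mul_sum, ← Finset.sum_add_distrib]
      refine Finset.sum_le_sum (fun g _ => ?_)
      rw [mul_assoc]
      nlinarith [sq_nonneg ((f (g * k) - f g) - (f (g * (k * k')) - f (g * k)))]
    have h2 := shift l hf hmul hinv (fun g => (f (g * k') - f g) ^ 2) (fun g => sq_nonneg _) k x y
    have h3 := h f x y
    have h4 := h' f (x - l k) (y + l k)
    have h5 : ∑ g ∈ An l hf (x - M) (y + M), ∑ s ∈ S, (f (g * s) - f g) ^ 2 ≤
        ∑ g ∈ An l hf (x - max M (l k + M')) (y + max M (l k + M')),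
          ∑ s ∈ S, (f (g * s) - f g) ^ 2 := by
      refine Finset.sum_le_sum_of_subset_of_nonneg (An_mono l hf ?_ ?_) (fun g _ _ => he f g)
      · linarith [le_max_left M (l k + M')]
      · linarith [le_max_left M (l k + M')]
    have h6 : ∑ g ∈ An l hf (x - l k - M') (y + l k + M'), ∑ s ∈ S, (f (g * s) - f g) ^ 2 ≤
        ∑ g ∈ An l hf (x - max M (l k + M')) (y + max M (l k + M')),
          ∑ s ∈ S, (f (g * s) - f g) ^ 2 := by
      refine Finset.sum_le_sum_of_subset_of_nonneg (An_mono l hf ?_ ?_) (fun g _ _ => he f g)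
      · linarith [le_max_right M (l k + M')]
      · linarith [le_max_right M (l k + M')]
    have h7 := mul_le_mul_of_nonneg_left h5 hc
    have h8 := mul_le_mul_of_nonneg_left h6 hc'
    linarith
  | inv k _ h =>
    obtain ⟨c, M, hc, hM, h⟩ := h
    refine ⟨c, l k + M, hc, by linarith [hl0 k], fun f x y => ?_⟩
    have h2 := shift l hf hmul hinv (fun g => (f (g * k⁻¹) - f g) ^ 2) (fun g => sq_nonneg _) k x y
    have h2' := shift l hf hmul hinv (fun g => (f (g * k) - f g) ^ 2) (fun g => sq_nonneg _) k⁻¹ x y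
    have h3 : ∑ g ∈ An l hf x y, (f (g * k⁻¹) - f g) ^ 2 =
        ∑ g ∈ An l hf x y, (f (g * k⁻¹ * k) - f (g * k⁻¹)) ^ 2 := by
      refine Finset.sum_congr rfl (fun g _ => ?_)
      rw [inv_mul_cancel_right]
      ring
    have h4 := h f (x - l k) (y + l k)
    rw [hinv] at h2'
    rw [h3]
    have e1 : x - (l k + M) = x - l k - M := by ring
    have e2 : y + (l k + M) = y + l k + M := by ring
    rw [e1, e2]
    exact h2'.trans h4

/-- all steps of length at most `B` -/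
theorem steps (hl0 : ∀ g, 0 ≤ l g) (S : Finset G) (hgen : Subgroup.closure (S : Set G) = ⊤)
    (F : Finset G) :
    ∃ c M : ℝ, 0 ≤ c ∧ 0 ≤ M ∧ ∀ (f : G → ℝ) (x y : ℝ),
      ∑ g ∈ An l hf x y, ∑ k ∈ F, (f (g * k) - f g) ^ 2 ≤
      c * ∑ g ∈ An l hf (x - M) (y + M), ∑ s ∈ S, (f (g * s) - f g) ^ 2 := by
  classical
  have he : ∀ (f : G → ℝ) (g : G), 0 ≤ ∑ s ∈ S, (f (g * s) - f g) ^ 2 :=
    fun f g => Finset.sum_nonneg (fun s _ => sq_nonneg _)
  choose c M hc hM h using step l hf hmul hinv hl0 S hgen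
  refine ⟨∑ k ∈ F, c k, ∑ k ∈ F, M k, Finset.sum_nonneg (fun k _ => hc k),
    Finset.sum_nonneg (fun k _ => hM k), fun f x y => ?_⟩
  rw [Finset.sum_comm, Finset.sum_mul]
  refine Finset.sum_le_sum (fun k hk => (h k f x y).trans ?_)
  refine mul_le_mul_of_nonneg_left ?_ (hc k)
  have h1 : M k ≤ ∑ k ∈ F, M k := Finset.single_le_sum (fun k _ => hM k) hk
  exact Finset.sum_le_sum_of_subset_of_nonneg (An_mono l hf (by linarith) (by linarith))
    (fun g _ _ => he f g)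

end Abs

/-- the lower bound by a harmonic sum gives the logarithm -/
theorem logsum (Λ N : ℝ) (j₀ : ℕ) (hΛ : 1 ≤ Λ) :
    ∃ κ R₀ : ℝ, 0 < κ ∧ ∀ (E : ℝ → ℝ) (δ : ℝ), 0 < δ → (∀ (R : ℝ) (J : ℕ), J * Λ + N ≤ R →
      ∑ j ∈ Finset.Ico j₀ (J + 1), δ / (j * Λ + 1) ≤ E R) →
      ∀ R : ℝ, R₀ ≤ R → κ * δ * Real.log R ≤ E R := by
  have hΛ0 : 0 < Λ := by linarith
  set H : ℝ := ∑ j ∈ Finset.range j₀, 1 / ((j : ℝ) + 1) with hH
  have hH0 : 0 ≤ H := Finset.sum_nonneg (fun j _ => by positivity)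
  refine ⟨1 / (2 * Λ), max (2 * N) (Real.exp (2 * (Real.log (2 * Λ) + H)) + 1), by positivity,
    fun E δ hδ h R hR => ?_⟩
  have hR1 : 2 * N ≤ R := (le_max_left _ _).trans hR
  have hR2 : Real.exp (2 * (Real.log (2 * Λ) + H)) + 1 ≤ R := (le_max_right _ _).trans hR
  have hexp := Real.exp_pos (2 * (Real.log (2 * Λ) + H))
  have hRpos : 0 < R := by linarith
  have hlogR : 2 * (Real.log (2 * Λ) + H) ≤ Real.log R := by
    rw [Real.le_log_iff_exp_le hRpos]
    linarith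
  set J : ℕ := ⌊(R - N) / Λ⌋₊ with hJ
  have hq : 0 ≤ (R - N) / Λ := div_nonneg (by linarith) hΛ0.le
  have hJ1 : (J : ℝ) ≤ (R - N) / Λ := Nat.floor_le hq
  have hJ2 : (R - N) / Λ < J + 1 := Nat.lt_floor_add_one _
  have hJ3 : J * Λ + N ≤ R := by
    have := (le_div_iff₀ hΛ0).1 hJ1
    linarith
  refine le_trans ?_ (h R J hJ3)
  have h1 : ∑ j ∈ Finset.Ico j₀ (J + 1), δ / Λ * (1 / ((j : ℝ) + 1)) ≤
      ∑ j ∈ Finset.Ico j₀ (J + 1), δ / (j * Λ + 1) := by
    refine Finset.sum_le_sum (fun j _ => ?_)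
    rw [div_mul_div_comm, mul_one]
    have hj : (0 : ℝ) ≤ (j : ℝ) := Nat.cast_nonneg j
    refine div_le_div_of_nonneg_left hδ.le (by positivity) ?_
    nlinarith
  refine le_trans ?_ h1
  rw [← Finset.mul_sum]
  have h2 : Real.log (R / (2 * Λ)) - H ≤ ∑ j ∈ Finset.Ico j₀ (J + 1), 1 / ((j : ℝ) + 1) := by
    have h3 : (∑ j ∈ Finset.range (J + 1), 1 / ((j : ℝ) + 1)) ≤
        H + ∑ j ∈ Finset.Ico j₀ (J + 1), 1 / ((j : ℝ) + 1) := by
      rcases le_total j₀ (J + 1) with hle | hle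
      · rw [hH, Finset.sum_range_add_sum_Ico _ hle]
      · rw [Finset.Ico_eq_empty_of_le hle, Finset.sum_empty, add_zero, hH]
        refine Finset.sum_le_sum_of_subset_of_nonneg (Finset.range_mono hle) (fun j _ _ => ?_)
        positivity
    have h4 : Real.log (R / (2 * Λ)) ≤ ∑ j ∈ Finset.range (J + 1), 1 / ((j : ℝ) + 1) := by
      have h5 := log_add_one_le_harmonic (J + 1)
      have h6 : ((harmonic (J + 1) : ℚ) : ℝ) = ∑ j ∈ Finset.range (J + 1), 1 / ((j : ℝ) + 1) := by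
        rw [harmonic]
        push_cast
        refine Finset.sum_congr rfl (fun j _ => ?_)
        rw [one_div]
      rw [h6] at h5
      refine le_trans (Real.log_le_log (by positivity) ?_) h5
      push_cast
      have h7 : R / (2 * Λ) ≤ (R - N) / Λ := by
        rw [div_le_div_iff₀ (by positivity) hΛ0]
        nlinarith
      linarith
    linarith
  rw [Real.log_div hRpos.ne' (by positivity)] at h2
  have h8 : 1 / 2 * Real.log R ≤ ∑ j ∈ Finset.Ico j₀ (J + 1), 1 / ((j : ℝ) + 1) := by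
    linarith
  have h9 := mul_le_mul_of_nonneg_left h8 (div_pos hδ hΛ0).le
  calc 1 / (2 * Λ) * δ * Real.log R = δ / Λ * (1 / 2 * Real.log R) := by
        field_simp
    _ ≤ _ := h9

/-- the abstract form, uniform in the function -/
theorem core {G : Type v} [Group G] (l : G → ℝ) (hf : ∀ R : ℝ, {g : G | l g ≤ R}.Finite)
    (hmul : ∀ g k : G, l (g * k) ≤ l g + l k) (hinv : ∀ g : G, l g⁻¹ = l g)
    (hl0 : ∀ g, 0 ≤ l g) (S : Finset G) (hgen : Subgroup.closure (S : Set G) = ⊤)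
    (D B C : ℝ)
    (hw : ∀ (r : ℝ) (g h : G), 0 ≤ r → r ≤ l g → l g ≤ r + D → r ≤ l h → l h ≤ r + D →
      ∃ (n : ℕ) (x : ℕ → G), (n : ℝ) ≤ C * (r + 1) ∧ x 0 = g ∧ x n = h ∧
      (∀ i, i ≤ n → r - B ≤ l (x i) ∧ l (x i) ≤ r + B) ∧
      ∀ i, i < n → l ((x i)⁻¹ * x (i + 1)) ≤ B) (r₀ : ℝ) :
    ∃ κ R₀ : ℝ, 0 < κ ∧ ∀ (f : G → ℝ) (a b : ℝ), b < a →
      (∀ r : ℝ, r₀ ≤ r → ∃ g : G, r ≤ l g ∧ l g ≤ r + D ∧ a ≤ f g) →
      (∀ r : ℝ, r₀ ≤ r → ∃ g : G, r ≤ l g ∧ l g ≤ r + D ∧ f g ≤ b) → ∀ R : ℝ, R₀ ≤ R →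
      κ * (a - b) ^ 2 * Real.log R ≤
        ∑ g ∈ (hf R).toFinset, ∑ s ∈ S, (f (g * s) - f g) ^ 2 := by
  classical
  have he : ∀ (f : G → ℝ) (g : G), 0 ≤ ∑ s ∈ S, (f (g * s) - f g) ^ 2 :=
    fun f g => Finset.sum_nonneg (fun s _ => sq_nonneg _)
  obtain ⟨c, M, hc, hM, hst⟩ := steps l hf hmul hinv hl0 S hgen (hf B).toFinset
  set N : ℝ := |B| + M with hNdef
  have hN0 : 0 ≤ N := add_nonneg (abs_nonneg B) hM
  have hΛ : (1 : ℝ) ≤ 2 * N + 1 := by linarith
  obtain ⟨κ, R₀, hκ, hlog⟩ := logsum (2 * N + 1) N ⌈max r₀ 0⌉₊ hΛ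
  have hC0 : 0 ≤ |C| := abs_nonneg C
  refine ⟨κ * (1 / ((|C| + 1) * (c + 1))), R₀, by positivity, fun f a b hab ha hb R hR => ?_⟩
  -- the energy of one annulus
  have hann : ∀ r : ℝ, max r₀ 0 ≤ r → (a - b) ^ 2 / ((|C| + 1) * (c + 1)) / (r + 1) ≤
      ∑ g ∈ An l hf (r - (|B| + M)) (r + (|B| + M)), ∑ s ∈ S, (f (g * s) - f g) ^ 2 := by
    intro r hr
    have hr0 : 0 ≤ r := (le_max_right _ _).trans hr
    obtain ⟨g, hg1, hg2, hg3⟩ := ha r ((le_max_left _ _).trans hr)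
    obtain ⟨h, hh1, hh2, hh3⟩ := hb r ((le_max_left _ _).trans hr)
    obtain ⟨n, x, hn, hx0, hxn, hxa, hxs⟩ := hw r h g hr0 hh1 hh2 hg1 hg2
    obtain ⟨m, y, hmn, hy0, hym, hya, hys, hyi⟩ := noloop
      (fun g => r - B ≤ l g ∧ l g ≤ r + B) (fun g g' => l (g⁻¹ * g') ≤ B) n x hxa hxs
    have h1 := tele (fun i => f (y i)) m
    have h2 : ∀ i ∈ Finset.range m, (f (y (i + 1)) - f (y i)) ^ 2 ≤
        ∑ k ∈ (hf B).toFinset, (f (y i * k) - f (y i)) ^ 2 := by
      intro i hi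
      have hi' := Finset.mem_range.1 hi
      have h3 : (y i)⁻¹ * y (i + 1) ∈ (hf B).toFinset := by
        rw [Set.Finite.mem_toFinset]
        exact hys i hi'
      have h4 := Finset.single_le_sum (f := fun k => (f (y i * k) - f (y i)) ^ 2)
        (fun k _ => sq_nonneg _) h3
      simp only [mul_inv_cancel_left] at h4
      exact h4
    have h3 := Finset.sum_le_sum h2
    have h4 : ∑ i ∈ Finset.range m, ∑ k ∈ (hf B).toFinset, (f (y i * k) - f (y i)) ^ 2 ≤
        ∑ g ∈ An l hf (r - |B|) (r + |B|), ∑ k ∈ (hf B).toFinset, (f (g * k) - f g) ^ 2 := by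
      have hinj : Set.InjOn y (Finset.range m : Set ℕ) := by
        intro i hi j hj hij
        have hi' := Finset.mem_range.1 (Finset.mem_coe.1 hi)
        have hj' := Finset.mem_range.1 (Finset.mem_coe.1 hj)
        rcases lt_trichotomy i j with hlt | heq | hgt
        · exact absurd hij (hyi i j hlt hj'.le)
        · exact heq
        · exact absurd hij.symm (hyi j i hgt hi'.le)
      rw [← Finset.sum_image (s := Finset.range m) (g := y)
        (f := fun g => ∑ k ∈ (hf B).toFinset, (f (g * k) - f g) ^ 2) hinj]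
      refine Finset.sum_le_sum_of_subset_of_nonneg ?_
        (fun g _ _ => Finset.sum_nonneg (fun k _ => sq_nonneg _))
      intro g hg
      obtain ⟨i, hi, rfl⟩ := Finset.mem_image.1 hg
      have hi' := Finset.mem_range.1 hi
      rw [mem_An]
      have h5 := hya i hi'.le
      exact ⟨by linarith [le_abs_self B, h5.1], by linarith [le_abs_self B, h5.2]⟩
    have h5 := hst f (r - |B|) (r + |B|)
    have e1 : r - |B| - M = r - (|B| + M) := by ring
    have e2 : r + |B| + M = r + (|B| + M) := by ring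
    rw [e1, e2] at h5
    set E := ∑ g ∈ An l hf (r - (|B| + M)) (r + (|B| + M)), ∑ s ∈ S, (f (g * s) - f g) ^ 2 with hE
    have hE0 : 0 ≤ E := Finset.sum_nonneg (fun g _ => he f g)
    have h6 : (a - b) ^ 2 ≤ (f (y m) - f (y 0)) ^ 2 := by
      rw [hym, hxn, hy0, hx0]
      exact pow_le_pow_left₀ (by linarith) (by linarith) 2
    have hm0 : (0 : ℝ) ≤ m := Nat.cast_nonneg m
    have h7 : (m : ℝ) ≤ (|C| + 1) * (r + 1) := by
      have h71 : (m : ℝ) ≤ n := Nat.cast_le.2 hmn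
      have h72 : C * (r + 1) ≤ (|C| + 1) * (r + 1) :=
        mul_le_mul_of_nonneg_right (by linarith [le_abs_self C]) (by linarith)
      linarith
    have h8 : (a - b) ^ 2 ≤ (|C| + 1) * (r + 1) * ((c + 1) * E) := by
      calc (a - b) ^ 2 ≤ (f (y m) - f (y 0)) ^ 2 := h6
        _ ≤ m * ∑ i ∈ Finset.range m, (f (y (i + 1)) - f (y i)) ^ 2 := h1
        _ ≤ m * ((c + 1) * E) := by
          refine mul_le_mul_of_nonneg_left ?_ hm0
          nlinarith
        _ ≤ _ := mul_le_mul_of_nonneg_right h7 (by positivity)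
    rw [div_div, div_le_iff₀ (by positivity)]
    calc (a - b) ^ 2 ≤ _ := h8
      _ = _ := by ring
  set δ : ℝ := (a - b) ^ 2 / ((|C| + 1) * (c + 1)) with hδdef
  have hδ : 0 < δ := by
    have : 0 < a - b := by linarith
    positivity
  have hfin := hlog (fun R => ∑ g ∈ (hf R).toFinset, ∑ s ∈ S, (f (g * s) - f g) ^ 2) δ hδ
    (fun R J hJ => ?_) R hR
  · have e : κ * (1 / ((|C| + 1) * (c + 1))) * (a - b) ^ 2 = κ * δ := by
      rw [hδdef]; ring
    rw [e]
    exact hfin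
  have h1 : ∑ j ∈ Finset.Ico ⌈max r₀ 0⌉₊ (J + 1), δ / ((j : ℝ) * (2 * N + 1) + 1) ≤
      ∑ j ∈ Finset.Ico ⌈max r₀ 0⌉₊ (J + 1),
        ∑ g ∈ An l hf ((j : ℝ) * (2 * N + 1) - N) ((j : ℝ) * (2 * N + 1) + N),
          ∑ s ∈ S, (f (g * s) - f g) ^ 2 := by
    refine Finset.sum_le_sum (fun j hj => hann _ ?_)
    have hj1 : ((⌈max r₀ 0⌉₊ : ℕ) : ℝ) ≤ j := Nat.cast_le.2 (Finset.mem_Ico.1 hj).1
    have hj2 := Nat.le_ceil (max r₀ 0)
    have hj3 : (0 : ℝ) ≤ (j : ℝ) := Nat.cast_nonneg j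
    nlinarith
  refine h1.trans ?_
  rw [← Finset.sum_biUnion]
  · refine Finset.sum_le_sum_of_subset_of_nonneg ?_ (fun g _ _ => he f g)
    intro g hg
    obtain ⟨j, hj, hg⟩ := Finset.mem_biUnion.1 hg
    rw [mem_An] at hg
    rw [Set.Finite.mem_toFinset]
    have hj1 : (j : ℝ) ≤ J := Nat.cast_le.2 (by have := (Finset.mem_Ico.1 hj).2; omega)
    have hj2 : (j : ℝ) * (2 * N + 1) ≤ J * (2 * N + 1) :=
      mul_le_mul_of_nonneg_right hj1 (by linarith)
    show l g ≤ R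
    linarith [hg.2]
  · intro i _ j _ hij
    have key : ∀ i j : ℕ, i < j → Disjoint
        (An l hf ((i : ℝ) * (2 * N + 1) - N) ((i : ℝ) * (2 * N + 1) + N))
        (An l hf ((j : ℝ) * (2 * N + 1) - N) ((j : ℝ) * (2 * N + 1) + N)) := by
      intro i j hlt
      rw [Finset.disjoint_left]
      intro g hg hg'
      rw [mem_An] at hg hg'
      have h2 : (i : ℝ) + 1 ≤ j := by exact_mod_cast hlt
      have h3 : ((i : ℝ) + 1) * (2 * N + 1) ≤ j * (2 * N + 1) :=
        mul_le_mul_of_nonneg_right h2 (by linarith)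
      nlinarith [hg.2, hg'.1]
    rcases lt_or_gt_of_ne hij with hlt | hgt
    · exact key i j hlt
    · exact (key j i hgt).symm

/-- **Uniform energy of harmonic functions.** -/
theorem unif {X : Type u} [MetricSpace X] {G : Type v}
    [Group G] [MulAction G X] (hG : Geo X G) (hGC : GC X) (hno : ∀ g : G, ¬ RankOne X g) (o : X)
    (S : Finset G) (hS : ∀ s ∈ S, s⁻¹ ∈ S) (hgen : Subgroup.closure (S : Set G) = ⊤)
    (hf : ∀ R : ℝ, {g : G | dist o (g • o) ≤ R}.Finite) :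
    ∃ κ R₀ : ℝ, 0 < κ ∧ ∀ f : G → ℝ, (∀ g, ∑ s ∈ S, (f (g * s) - f g) = 0) →
      ∀ t ∈ S, ∀ R : ℝ, R₀ ≤ R → κ * (f t - f 1) ^ 2 * Real.log R ≤
        ∑ g ∈ (hf R).toFinset, ∑ s ∈ S, (f (g * s) - f g) ^ 2 := by
  have _ := hG.isom
  set D : ℝ := ∑ s ∈ S, dist o (s • o) with hD
  have hD0 : 0 ≤ D := Finset.sum_nonneg fun _ _ => dist_nonneg
  have hDs : ∀ s ∈ S, dist o (s • o) ≤ D := fun s hs =>
    Finset.single_le_sum (f := fun s => dist o (s • o)) (fun _ _ => dist_nonneg) hs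
  obtain ⟨B, C', hW⟩ := Pool.Agent.Y914.EL.t_WLK X G hG hGC o 42
    (fun c c' hc hc' => linked hG hno o c c' hc hc') D hD0
  have hmul : ∀ g k : G, dist o ((g * k) • o) ≤ dist o (g • o) + dist o (k • o) := by
    intro g k
    have h1 := dist_triangle o (g • o) ((g * k) • o)
    rw [mul_smul, dist_smul] at h1
    rw [mul_smul]
    exact h1
  have hinv : ∀ g : G, dist o (g⁻¹ • o) = dist o (g • o) := by
    intro g
    rw [← dist_smul g o (g⁻¹ • o), smul_inv_smul, dist_comm]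
  obtain ⟨κ, R₀, hκ, h⟩ := core (fun g : G => dist o (g • o)) hf hmul hinv
    (fun g => dist_nonneg) S hgen D B C' hW D
  refine ⟨κ, max R₀ 1, hκ, fun f hh t ht R hR => ?_⟩
  have hR1 : R₀ ≤ R := (le_max_left _ _).trans hR
  -- the symmetric statement
  have key : ∀ (p q : G), dist o (p • o) ≤ D → dist o (q • o) ≤ D → f q < f p →
      κ * (f p - f q) ^ 2 * Real.log R ≤
        ∑ g ∈ (hf R).toFinset, ∑ s ∈ S, (f (g * s) - f g) ^ 2 := by
    intro p q hp hq hlt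
    refine h f (f p) (f q) hlt (fun r hr => ?_) (fun r hr => ?_) R hR1
    · exact Pool.Agent.Y528.EL.core hG o S hgen D hDs f hh hS p q (f p) le_rfl hlt r (hp.trans hr)
    · have hf' : ∀ g, ∑ s ∈ S, ((fun x => - f x) (g * s) - (fun x => - f x) g) = 0 := by
        intro g
        have h1 : ∑ s ∈ S, ((fun x => - f x) (g * s) - (fun x => - f x) g) =
            - ∑ s ∈ S, (f (g * s) - f g) := by
          rw [← Finset.sum_neg_distrib]
          exact Finset.sum_congr rfl fun s _ => by ring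
        rw [h1, hh, neg_zero]
      obtain ⟨g, h1, h2, h3⟩ := Pool.Agent.Y528.EL.core hG o S hgen D hDs (fun x => - f x) hf' hS
        q p (- f q) le_rfl (by simpa using hlt) r (hq.trans hr)
      exact ⟨g, h1, h2, by linarith⟩
  have h1o : dist o ((1 : G) • o) ≤ D := by rw [one_smul, dist_self]; exact hD0
  rcases lt_trichotomy (f t) (f 1) with hlt | heq | hgt
  · have := key 1 t h1o (hDs t ht) hlt
    have e : (f t - f 1) ^ 2 = (f 1 - f t) ^ 2 := by ring
    rw [e]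
    exact this
  · rw [heq, sub_self]
    have : 0 ≤ ∑ g ∈ (hf R).toFinset, ∑ s ∈ S, (f (g * s) - f g) ^ 2 :=
      Finset.sum_nonneg fun g _ => Finset.sum_nonneg fun s _ => sq_nonneg _
    simpa using this
  · exact key t 1 (hDs t ht) h1o hgt

end Pool.Agent.U674.BG
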